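import Pool.Agent.Helper85.Proj.Norm

set_option autoImplicit false

/-!
# Packet E: the volume of the projection
-/

namespace Pool.Agent.Helper85.ProjE

open MeasureTheory Set Filter Topology Module
open Pool.Agent.Helper7.Proj

variable {n : ℕ}

/-- minimizer along the line -/
noncomputable def s0 (p : ℝ) (u y : Fin n → ℝ) : ℝ :=
  open Classical in
  if h : ∃ s0 : ℝ, ∀ s : ℝ, Np p (y + s0 • u) ≤ Np p (y + s • u) then h.choose else 0

theorem s0_spec {p : ℝ} (hp : 1 < p) (u y : Fin n → ℝ) (hu : u ≠ 0) (s : ℝ) :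
    Np p (y + s0 p u y • u) ≤ Np p (y + s • u) := by
  have h := exists_min hp u y hu
  rw [s0, dif_pos h]
  exact h.choose_spec s

/-- the quotient norm -/
noncomputable def gg (p : ℝ) (u y : Fin n → ℝ) : ℝ := nrm p (y + s0 p u y • u)

theorem gg_le {p : ℝ} (hp : 1 < p) (u y : Fin n → ℝ) (hu : u ≠ 0) (s : ℝ) :
    gg p u y ≤ nrm p (y + s • u) :=
  Real.rpow_le_rpow (Np_nonneg _ _) (s0_spec hp u y hu s) (by positivity)

theorem gg_nonneg {p : ℝ} (u y : Fin n → ℝ) : 0 ≤ gg p u y := nrm_nonneg _ _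

theorem gg_zero {p : ℝ} (hp : 1 < p) (u : Fin n → ℝ) (hu : u ≠ 0) : gg p u 0 = 0 := by
  apply le_antisymm _ (gg_nonneg _ _)
  refine (gg_le hp u 0 hu 0).trans_eq ?_
  rw [nrm_eq_zero hp]; simp

theorem gg_neg_le {p : ℝ} (hp : 1 < p) (u y : Fin n → ℝ) (hu : u ≠ 0) :
    gg p u (-y) ≤ gg p u y := by
  refine (gg_le hp u (-y) hu (-s0 p u y)).trans_eq ?_
  have : -y + -s0 p u y • u = (-1 : ℝ) • (y + s0 p u y • u) := by
    rw [smul_add, neg_one_smul, neg_one_smul, neg_smul]
  rw [this, nrm_smul hp]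
  simp [gg]

theorem gg_neg {p : ℝ} (hp : 1 < p) (u y : Fin n → ℝ) (hu : u ≠ 0) :
    gg p u (-y) = gg p u y := by
  apply le_antisymm (gg_neg_le hp u y hu)
  have := gg_neg_le hp u (-y) hu
  rwa [neg_neg] at this

theorem gg_add {p : ℝ} (hp : 1 < p) (u x y : Fin n → ℝ) (hu : u ≠ 0) :
    gg p u (x + y) ≤ gg p u x + gg p u y := by
  refine (gg_le hp u (x + y) hu (s0 p u x + s0 p u y)).trans ?_
  have : x + y + (s0 p u x + s0 p u y) • u = (x + s0 p u x • u) + (y + s0 p u y • u) := by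
    rw [add_smul]; abel
  rw [this]
  exact nrm_add hp _ _

theorem gg_smul {p : ℝ} (hp : 1 < p) (u y : Fin n → ℝ) (hu : u ≠ 0) (r : ℝ) :
    gg p u (r • y) ≤ |r| * gg p u y := by
  refine (gg_le hp u (r • y) hu (r * s0 p u y)).trans_eq ?_
  have : r • y + (r * s0 p u y) • u = r • (y + s0 p u y • u) := by
    rw [smul_add, smul_smul]
  rw [this, nrm_smul hp]
  rfl

theorem gg_eq_zero {p : ℝ} (hp : 1 < p) (u y : Fin n → ℝ) (h : gg p u y = 0) :
    y = -s0 p u y • u := by
  rw [gg, nrm_eq_zero hp] at h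
  rw [neg_smul]
  exact eq_neg_of_add_eq_zero_left h

/-- the integrand of `J` -/
noncomputable def FF (p : ℝ) (u x : Fin n → ℝ) : ENNReal :=
  ENNReal.ofReal (|Dv p u x| * Real.exp (-Np p x))

theorem measurable_Dv (p : ℝ) (u : Fin n → ℝ) : Measurable (Dv p u) := by
  unfold Dv
  refine Measurable.const_mul ?_ _
  refine Finset.measurable_sum _ fun i _ => ?_
  exact (measurable_sg.comp (measurable_pi_apply i)).const_mul _

theorem measurable_FF {p : ℝ} (hp : 1 < p) (u : Fin n → ℝ) : Measurable (FF p u) := by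
  unfold FF
  refine ENNReal.measurable_ofReal.comp (Measurable.mul ?_ ?_)
  · exact (measurable_Dv p u).abs
  · exact Real.measurable_exp.comp (continuous_Np hp).measurable.neg

theorem pJ_eq {p : ℝ} (hp : 1 < p) (u : Fin n → ℝ) :
    p * J p u = (∫⁻ x : Fin n → ℝ, FF p u x).toReal := by
  rw [J, ← integral_const_mul, integral_eq_lintegral_of_nonneg_ae]
  · congr 1
    refine lintegral_congr fun x => ?_
    rw [FF]
    congr 1
    rw [Dv, abs_mul, abs_of_pos (by linarith : 0 < p), Np]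
    ring
  · refine Eventually.of_forall fun x => ?_
    have := Real.exp_pos (-∑ i, |x i| ^ p)
    exact mul_nonneg (by linarith) (mul_nonneg (abs_nonneg _) this.le)
  · refine Measurable.aestronglyMeasurable ?_
    refine Measurable.const_mul (Measurable.mul ?_ ?_) _
    · refine Measurable.abs ?_
      refine Finset.measurable_sum _ fun i _ => ?_
      exact (measurable_sg.comp (measurable_pi_apply i)).const_mul _
    · exact Real.measurable_exp.comp (continuous_Np hp).measurable.neg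

theorem split {p : ℝ} (hp : 1 < p) (u : EuclideanSpace ℝ (Fin n)) (hu : ‖u‖ = 1) :
    ∫⁻ x : Fin n → ℝ, FF p (fun i => u i) x =
      ∫⁻ y : (ℝ ∙ u)ᗮ, ∫⁻ s : ℝ, FF p (fun i => u i) (fun i => (y : EuclideanSpace ℝ (Fin n)) i + s * u i) := by
  have hF := measurable_FF hp (fun i => u i)
  have h1 : ∫⁻ x : Fin n → ℝ, FF p (fun i => u i) x =
      ∫⁻ x : EuclideanSpace ℝ (Fin n), FF p (fun i => u i) (fun i => x i) :=
    ((PiLp.volume_preserving_ofLp (Fin n)).lintegral_comp hF).symm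
  have hm := ((ℝ ∙ u).orthogonalDecomposition.symm.measurePreserving).comp
    (WithLp.volume_preserving_toLp (ℝ ∙ u) (ℝ ∙ u)ᗮ)
  have hFE : Measurable fun x : EuclideanSpace ℝ (Fin n) => FF p (fun i => u i) (fun i => x i) :=
    hF.comp (PiLp.volume_preserving_ofLp (Fin n)).measurable
  rw [h1, ← hm.lintegral_comp hFE, Measure.volume_eq_prod]
  refine (lintegral_prod_symm' _ (hFE.comp hm.measurable)).trans ?_
  refine lintegral_congr fun y => ?_
  have hs := (LinearIsometryEquiv.toSpanUnitSingleton (𝕜 := ℝ) u hu).measurePreserving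
  have hmy : Measurable fun a : (ℝ ∙ u) => FF p (fun i => u i)
      (fun i => (((ℝ ∙ u).orthogonalDecomposition.symm ∘ WithLp.toLp 2) (a, y) : EuclideanSpace ℝ (Fin n)) i) :=
    (hFE.comp hm.measurable).comp (measurable_id.prodMk measurable_const)
  refine (hs.lintegral_comp hmy).symm.trans ?_
  refine lintegral_congr fun s => ?_
  congr 1
  ext i
  simp [add_comm]

theorem inner_lint {p : ℝ} (hp : 1 < p) (u y : Fin n → ℝ) (hu : u ≠ 0) :
    ∫⁻ s : ℝ, FF p u (fun i => y i + s * u i) =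
      ENNReal.ofReal (2 * Real.exp (-(gg p u y) ^ p)) := by
  rw [gg, nrm_rpow (by linarith), ← line_Np hp u y hu _ (s0_spec hp u y hu)]
  rfl

theorem u_ne_zero (u : EuclideanSpace ℝ (Fin n)) (hu : ‖u‖ = 1) : (fun i => u i) ≠ 0 := by
  intro h
  have : u = 0 := by
    ext i
    exact congrFun h i
  rw [this, norm_zero] at hu
  exact zero_ne_one hu

theorem pJ_eq2 {p : ℝ} (hp : 1 < p) (u : EuclideanSpace ℝ (Fin n)) (hu : ‖u‖ = 1) :
    p * J p (fun i => u i) =
      2 * ∫ y : (ℝ ∙ u)ᗮ, Real.exp (-(gg p (fun i => u i) (fun i => (y : EuclideanSpace ℝ (Fin n)) i)) ^ p) := by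
  have hne := u_ne_zero u hu
  have hF := measurable_FF hp (fun i => u i)
  have hin : ∀ y : (ℝ ∙ u)ᗮ, ∫⁻ s : ℝ, FF p (fun i => u i) (fun i => (y : EuclideanSpace ℝ (Fin n)) i + s * u i) =
      ENNReal.ofReal (2 * Real.exp (-(gg p (fun i => u i) (fun i => (y : EuclideanSpace ℝ (Fin n)) i)) ^ p)) :=
    fun y => inner_lint hp _ _ hne
  have hmeas : Measurable fun y : (ℝ ∙ u)ᗮ =>
      ENNReal.ofReal (2 * Real.exp (-(gg p (fun i => u i) (fun i => (y : EuclideanSpace ℝ (Fin n)) i)) ^ p)) := by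
    simp_rw [← hin]
    refine Measurable.lintegral_prod_right' (f := fun z : (ℝ ∙ u)ᗮ × ℝ =>
      FF p (fun i => u i) (fun i => (z.1 : EuclideanSpace ℝ (Fin n)) i + z.2 * u i)) (hF.comp ?_)
    refine measurable_pi_lambda _ fun i => ?_
    refine Continuous.measurable ?_
    have : Continuous fun z : (ℝ ∙ u)ᗮ × ℝ => (z.1 : EuclideanSpace ℝ (Fin n)) i := by
      have h2 : Continuous fun x : EuclideanSpace ℝ (Fin n) => x i := by fun_prop
      exact h2.comp (continuous_subtype_val.comp continuous_fst)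
    fun_prop
  have hmeas2 : Measurable fun y : (ℝ ∙ u)ᗮ =>
      2 * Real.exp (-(gg p (fun i => u i) (fun i => (y : EuclideanSpace ℝ (Fin n)) i)) ^ p) := by
    have h3 := hmeas.ennreal_toReal
    have h4 : (fun y : (ℝ ∙ u)ᗮ => (ENNReal.ofReal (2 * Real.exp
        (-(gg p (fun i => u i) (fun i => (y : EuclideanSpace ℝ (Fin n)) i)) ^ p))).toReal) =
        fun y : (ℝ ∙ u)ᗮ =>
          2 * Real.exp (-(gg p (fun i => u i) (fun i => (y : EuclideanSpace ℝ (Fin n)) i)) ^ p) := by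
      funext y
      rw [ENNReal.toReal_ofReal]
      positivity
    rwa [h4] at h3
  rw [pJ_eq hp, split hp u hu]
  simp_rw [hin]
  rw [← integral_const_mul, integral_eq_lintegral_of_nonneg_ae]
  · refine Eventually.of_forall fun y => ?_
    have := Real.exp_pos (-(gg p (fun i => u i) (fun i => (y : EuclideanSpace ℝ (Fin n)) i)) ^ p)
    simp only [Pi.zero_apply]
    linarith
  · exact hmeas2.aestronglyMeasurable

theorem image_eq {p : ℝ} (hp : 1 < p) (u : EuclideanSpace ℝ (Fin n)) (hu : ‖u‖ = 1) :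
    (ℝ ∙ u)ᗮ.orthogonalProjectionOnto '' Bp p n =
      {y : (ℝ ∙ u)ᗮ | gg p (fun i => u i) (fun i => (y : EuclideanSpace ℝ (Fin n)) i) ≤ 1} := by
  have hne := u_ne_zero u hu
  ext y
  simp only [mem_image, mem_ofPred_eq]
  constructor
  · rintro ⟨x, hx, rfl⟩
    obtain ⟨s, hs⟩ : ∃ s : ℝ, x = ((ℝ ∙ u)ᗮ.orthogonalProjectionOnto x : EuclideanSpace ℝ (Fin n)) + s • u := by
      obtain ⟨s, hs⟩ := Submodule.mem_span_singleton.1
        ((ℝ ∙ u).starProjection_apply_mem x)
      refine ⟨s, ?_⟩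
      rw [hs, Submodule.orthogonalProjectionOnto_orthogonal]
      simp
    refine (gg_le hp _ _ hne s).trans ?_
    have : (fun i => ((ℝ ∙ u)ᗮ.orthogonalProjectionOnto x : EuclideanSpace ℝ (Fin n)) i) + s • (fun i => u i) =
        fun i => x i := by
      ext i
      conv_rhs => rw [hs]
      simp
    rw [this, nrm]
    exact Real.rpow_le_one (Np_nonneg _ _) hx (by positivity)
  · intro h
    refine ⟨(y : EuclideanSpace ℝ (Fin n)) + s0 p (fun i => u i) (fun i => (y : EuclideanSpace ℝ (Fin n)) i) • u, ?_, ?_⟩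
    · have h2 : Np p ((fun i => (y : EuclideanSpace ℝ (Fin n)) i) + s0 p (fun i => u i) (fun i => (y : EuclideanSpace ℝ (Fin n)) i) •
          (fun i => u i)) ≤ 1 := by
        rw [← nrm_rpow (by linarith : 0 < p)]
        exact Real.rpow_le_one (nrm_nonneg _ _) h (by linarith)
      exact h2
    · rw [map_add, map_smul, Submodule.orthogonalProjectionOnto_mem_subspace_eq_self,
        Submodule.orthogonalProjectionOnto_orthogonalComplement_singleton_eq_zero, smul_zero,
        add_zero]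

theorem volume_eq {p : ℝ} (hp : 1 < p) (hn : 0 < n) (u : EuclideanSpace ℝ (Fin n)) (hu : ‖u‖ = 1) :
    projVol p n u = (∫ y : (ℝ ∙ u)ᗮ, Real.exp (-(gg p (fun i => u i)
      (fun i => (y : EuclideanSpace ℝ (Fin n)) i)) ^ p)) / Real.Gamma (((n - 1 : ℕ) : ℝ) / p + 1) := by
  have hne := u_ne_zero u hu
  have hu0 : u ≠ 0 := by
    rintro rfl
    rw [norm_zero] at hu
    exact zero_ne_one hu
  have hfr : finrank ℝ (ℝ ∙ u)ᗮ = n - 1 := by
    have : Fact (finrank ℝ (EuclideanSpace ℝ (Fin n)) = (n - 1) + 1) := ⟨by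
      rw [finrank_euclideanSpace_fin]; omega⟩
    exact Submodule.finrank_orthogonal_span_singleton hu0
  set g : (ℝ ∙ u)ᗮ → ℝ := fun y => gg p (fun i => u i) (fun i => (y : EuclideanSpace ℝ (Fin n)) i) with hg
  have g1 : g 0 = 0 := gg_zero hp _ hne
  have g2 : ∀ x, g (-x) = g x := fun x => gg_neg hp _ _ hne
  have g3 : ∀ x y, g (x + y) ≤ g x + g y := fun x y => gg_add hp _ _ _ hne
  have g4 : ∀ {x}, g x = 0 → x = 0 := by
    intro x hx
    have h1 := gg_eq_zero hp _ _ hx
    have h2 : (x : EuclideanSpace ℝ (Fin n)) = (-s0 p (fun i => u i) (fun i => (x : EuclideanSpace ℝ (Fin n)) i)) • u := by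
      ext i
      exact congrFun h1 i
    have h3 : (x : EuclideanSpace ℝ (Fin n)) ∈ (ℝ ∙ u) := by
      rw [h2]
      exact Submodule.smul_mem _ _ (Submodule.mem_span_singleton_self u)
    have h4 := Submodule.inner_right_of_mem_orthogonal h3 x.2
    rw [inner_self_eq_zero] at h4
    exact Subtype.ext h4
  have g5 : ∀ r x, g (r • x) ≤ |r| * g x := fun r x => gg_smul hp _ _ hne r
  have key := measure_lt_one_eq_integral_div_gamma (volume : Measure (ℝ ∙ u)ᗮ) g1 g2 g3 g4 g5
    (by linarith : 0 < p)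
  have hle : (volume : Measure (ℝ ∙ u)ᗮ) {x | g x ≤ 1} =
      (volume : Measure (ℝ ∙ u)ᗮ) {x | g x < 1} := by
    rcases subsingleton_or_nontrivial (ℝ ∙ u)ᗮ with h | h
    · congr 1
      ext x
      simp only [mem_ofPred_eq]
      rw [Subsingleton.elim x 0, g1]
      norm_num
    · exact measure_le_eq_lt (volume : Measure (ℝ ∙ u)ᗮ) g1 g2 g3 g4 g5 1
  rw [projVol, image_eq hp u hu, Measure.real]
  change ((volume : Measure (ℝ ∙ u)ᗮ) {x | g x ≤ 1}).toReal = _
  rw [hle, key, hfr, ENNReal.toReal_ofReal]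
  refine div_nonneg (integral_nonneg fun _ => (Real.exp_pos _).le) ?_
  exact Real.Gamma_nonneg_of_nonneg (by positivity)

theorem pktE : PktE := by
  intro p hp _ n hn
  have hG : 0 < Real.Gamma (((n - 1 : ℕ) : ℝ) / p + 1) := Real.Gamma_pos_of_pos (by positivity)
  refine ⟨p / (2 * Real.Gamma (((n - 1 : ℕ) : ℝ) / p + 1)), by positivity, fun u hu => ?_⟩
  have h1 := pJ_eq2 hp u hu
  rw [volume_eq hp hn u hu]
  rw [div_mul_eq_mul_div, h1]
  field_simp

end Pool.Agent.Helper85.ProjE
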