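import Pool.Agent.Helper85.Proj.OneD

set_option autoImplicit false

/-!
# The norm on the hyperplane (packet E)
-/

namespace Pool.Agent.Helper85.ProjE

open MeasureTheory Set Filter Topology
open Pool.Agent.Helper7.Proj

/-- `∑ |x_i|^p` -/
noncomputable def Np (p : ℝ) {n : ℕ} (x : Fin n → ℝ) : ℝ := ∑ i, |x i| ^ p

/-- the `p` norm -/
noncomputable def nrm (p : ℝ) {n : ℕ} (x : Fin n → ℝ) : ℝ := (Np p x) ^ (1 / p)

theorem Np_nonneg (p : ℝ) {n : ℕ} (x : Fin n → ℝ) : 0 ≤ Np p x :=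
  Finset.sum_nonneg fun _ _ => Real.rpow_nonneg (abs_nonneg _) _

theorem nrm_nonneg (p : ℝ) {n : ℕ} (x : Fin n → ℝ) : 0 ≤ nrm p x :=
  Real.rpow_nonneg (Np_nonneg p x) _

theorem nrm_rpow {p : ℝ} (hp : 0 < p) {n : ℕ} (x : Fin n → ℝ) : nrm p x ^ p = Np p x := by
  rw [nrm, ← Real.rpow_mul (Np_nonneg p x), one_div_mul_cancel hp.ne', Real.rpow_one]

theorem norm_toLp {p : ℝ} (hp : 1 < p) {n : ℕ} (x : Fin n → ℝ) :
    ‖WithLp.toLp (ENNReal.ofReal p) x‖ = nrm p x := by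
  have h₁ : 0 < p := by linarith
  have this : (ENNReal.ofReal p).toReal = p := ENNReal.toReal_ofReal h₁.le
  rw [PiLp.norm_eq_sum (f := WithLp.toLp (ENNReal.ofReal p) x) (this.symm ▸ h₁), this]
  rfl

theorem nrm_add {p : ℝ} (hp : 1 < p) {n : ℕ} (x y : Fin n → ℝ) :
    nrm p (x + y) ≤ nrm p x + nrm p y := by
  have : Fact (1 ≤ ENNReal.ofReal p) :=
    fact_iff.mpr (ENNReal.ofReal_one ▸ (ENNReal.ofReal_le_ofReal hp.le))
  rw [← norm_toLp hp, ← norm_toLp hp, ← norm_toLp hp, WithLp.toLp_add]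
  exact norm_add_le _ _

theorem nrm_smul {p : ℝ} (hp : 1 < p) {n : ℕ} (r : ℝ) (x : Fin n → ℝ) :
    nrm p (r • x) = |r| * nrm p x := by
  have : Fact (1 ≤ ENNReal.ofReal p) :=
    fact_iff.mpr (ENNReal.ofReal_one ▸ (ENNReal.ofReal_le_ofReal hp.le))
  rw [← norm_toLp hp, ← norm_toLp hp, WithLp.toLp_smul, norm_smul, Real.norm_eq_abs]

theorem nrm_eq_zero {p : ℝ} (hp : 1 < p) {n : ℕ} (x : Fin n → ℝ) :
    nrm p x = 0 ↔ x = 0 := by
  have : Fact (1 ≤ ENNReal.ofReal p) :=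
    fact_iff.mpr (ENNReal.ofReal_one ▸ (ENNReal.ofReal_le_ofReal hp.le))
  rw [← norm_toLp hp, norm_eq_zero, WithLp.toLp_eq_zero]

theorem continuous_Np {p : ℝ} (hp : 1 < p) {n : ℕ} : Continuous (Np p : (Fin n → ℝ) → ℝ) := by
  unfold Np
  refine continuous_finsetSum _ fun i _ => ?_
  exact (continuous_abs.comp (continuous_apply i)).rpow_const fun _ => Or.inr (by linarith)

variable {n : ℕ}

/-- `p ∑ u_i sg(x_i)` -/
noncomputable def Dv (p : ℝ) (u x : Fin n → ℝ) : ℝ := p * ∑ i, u i * sg p (x i)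

theorem hasDerivAt_Np {p : ℝ} (hp : 1 < p) (u y : Fin n → ℝ) (s : ℝ) :
    HasDerivAt (fun s : ℝ => Np p (y + s • u)) (Dv p u (y + s • u)) s := by
  have h : ∀ i ∈ (Finset.univ : Finset (Fin n)),
      HasDerivAt (fun s : ℝ => |y i + s * u i| ^ p) (p * sg p (y i + s * u i) * u i) s := by
    intro i _
    have h1 : HasDerivAt (fun s : ℝ => y i + s * u i) (u i) s := by
      simpa using ((hasDerivAt_id s).mul_const (u i)).const_add (y i)
    exact (hasDerivAt_abs_rpow' hp (y i + s * u i)).comp s h1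
  have h2 := HasDerivAt.fun_sum h
  refine h2.congr_deriv ?_
  rw [Dv, Finset.mul_sum]
  refine Finset.sum_congr rfl fun i _ => ?_
  simp only [Pi.add_apply, Pi.smul_apply, smul_eq_mul]
  ring

theorem Dv_mono {p : ℝ} (hp : 1 < p) (u y : Fin n → ℝ) :
    Monotone fun s : ℝ => Dv p u (y + s • u) := by
  intro s t hst
  refine mul_le_mul_of_nonneg_left (Finset.sum_le_sum fun i _ => ?_) (by linarith)
  simp only [Pi.add_apply, Pi.smul_apply, smul_eq_mul]
  rcases le_total 0 (u i) with h | h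
  · exact mul_le_mul_of_nonneg_left (sg_mono hp (by nlinarith)) h
  · exact mul_le_mul_of_nonpos_left (sg_mono hp (by nlinarith)) h

theorem tendsto_Np {p : ℝ} (hp : 1 < p) (u y : Fin n → ℝ) (hu : u ≠ 0) :
    Tendsto (fun s : ℝ => Np p (y + s • u)) (cocompact ℝ) atTop := by
  obtain ⟨i, hi⟩ : ∃ i, u i ≠ 0 := by
    by_contra h
    push Not at h
    exact hu (funext h)
  refine tendsto_atTop_mono (fun s => ?_) (tendsto_abs_rpow (by linarith : 0 < p) (y i) (u i) hi)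
  exact Finset.single_le_sum (f := fun i => |(y + s • u) i| ^ p)
    (fun _ _ => Real.rpow_nonneg (abs_nonneg _) _) (Finset.mem_univ i)

theorem exists_min {p : ℝ} (hp : 1 < p) (u y : Fin n → ℝ) (hu : u ≠ 0) :
    ∃ s0 : ℝ, ∀ s : ℝ, Np p (y + s0 • u) ≤ Np p (y + s • u) := by
  refine Continuous.exists_forall_le ((continuous_Np hp).comp (by fun_prop)) (tendsto_Np hp u y hu)

theorem line_Np {p : ℝ} (hp : 1 < p) (u y : Fin n → ℝ) (hu : u ≠ 0) (s0 : ℝ)
    (hs0 : ∀ s : ℝ, Np p (y + s0 • u) ≤ Np p (y + s • u)) :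
    ∫⁻ s : ℝ, ENNReal.ofReal (|Dv p u (y + s • u)| * Real.exp (-Np p (y + s • u))) =
      ENNReal.ofReal (2 * Real.exp (-Np p (y + s0 • u))) := by
  have hz : Dv p u (y + s0 • u) = 0 := by
    have hl : IsLocalMin (fun s : ℝ => Np p (y + s • u)) s0 := Eventually.of_forall hs0
    exact hl.hasDerivAt_eq_zero (hasDerivAt_Np hp u y s0)
  refine line (h := fun s : ℝ => Np p (y + s • u)) (h' := fun s : ℝ => Dv p u (y + s • u))
    (s0 := s0) (hasDerivAt_Np hp u y) ?_ ?_ ?_ ?_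
  · intro s hs
    have := Dv_mono hp u y hs.le
    simp only [hz] at this
    exact this
  · intro s hs
    have := Dv_mono hp u y hs.le
    simp only [hz] at this
    exact this
  · exact (tendsto_Np hp u y hu).mono_left atTop_le_cocompact
  · exact (tendsto_Np hp u y hu).mono_left atBot_le_cocompact

end Pool.Agent.Helper85.ProjE
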