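import Pool.Agent.Helper7.Proj.Packets

set_option autoImplicit false

/-!
# One-dimensional facts for packet E
-/

namespace Pool.Agent.Helper85.ProjE

open MeasureTheory Set Filter Topology
open Pool.Agent.Helper7.Proj

theorem sg_zero {p : ℝ} : sg p 0 = 0 := by simp [sg]

theorem sg_of_pos {p x : ℝ} (hx : 0 < x) : sg p x = x ^ (p - 1) := by
  rw [sg, Real.sign_of_pos hx, one_mul, abs_of_pos hx]

theorem sg_of_neg {p x : ℝ} (hx : x < 0) : sg p x = -(-x) ^ (p - 1) := by
  rw [sg, Real.sign_of_neg hx, abs_of_neg hx]; ring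

theorem sg_nonneg {p x : ℝ} (hx : 0 ≤ x) : 0 ≤ sg p x := by
  rcases hx.eq_or_lt with h | h
  · rw [← h, sg_zero]
  · rw [sg_of_pos h]; exact Real.rpow_nonneg hx _

theorem sg_nonpos {p x : ℝ} (hx : x ≤ 0) : sg p x ≤ 0 := by
  rcases hx.eq_or_lt with h | h
  · rw [h, sg_zero]
  · rw [sg_of_neg h]
    have := Real.rpow_nonneg (neg_nonneg.2 hx) (p - 1)
    linarith

theorem sg_mono {p : ℝ} (hp : 1 < p) : Monotone (sg p) := by
  intro x y hxy
  rcases lt_or_ge x 0 with hx | hx
  · rcases lt_or_ge y 0 with hy | hy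
    · rw [sg_of_neg hx, sg_of_neg hy]
      have : (-y) ^ (p - 1) ≤ (-x) ^ (p - 1) :=
        Real.rpow_le_rpow (by linarith) (by linarith) (by linarith)
      linarith
    · exact (sg_nonpos hx.le).trans (sg_nonneg hy)
  · rcases hx.eq_or_lt with h | h
    · rw [← h, sg_zero]; exact sg_nonneg (h ▸ hxy)
    · rw [sg_of_pos h, sg_of_pos (h.trans_le hxy)]
      exact Real.rpow_le_rpow hx hxy (by linarith)

theorem hasDerivAt_abs_rpow' {p : ℝ} (hp : 1 < p) (x : ℝ) :
    HasDerivAt (fun x : ℝ => |x| ^ p) (p * sg p x) x := by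
  have h := hasDerivAt_abs_rpow x hp
  convert h using 1
  rcases lt_trichotomy x 0 with hx | hx | hx
  · rw [sg_of_neg hx, abs_of_neg hx]
    have : (-x) ^ (p - 1) = (-x) ^ (p - 2) * (-x) := by
      rw [← Real.rpow_add_one (by linarith)]; congr 1; ring
    rw [this]; ring
  · rw [hx, sg_zero]; ring
  · rw [sg_of_pos hx, abs_of_pos hx]
    have : x ^ (p - 1) = x ^ (p - 2) * x := by
      rw [← Real.rpow_add_one (by linarith)]; congr 1; ring
    rw [this]; ring

theorem measurable_sg {p : ℝ} : Measurable (sg p) := by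
  unfold sg
  have h1 : Measurable Real.sign := by
    unfold Real.sign
    exact Measurable.ite measurableSet_Iio measurable_const
      (Measurable.ite measurableSet_Ioi measurable_const measurable_const)
  exact h1.mul ((measurable_norm (α := ℝ)).pow_const _)

theorem tendsto_abs_rpow {p : ℝ} (hp : 0 < p) (y u : ℝ) (hu : u ≠ 0) :
    Tendsto (fun s : ℝ => |y + s * u| ^ p) (cocompact ℝ) atTop := by
  have h1 : Tendsto (fun s : ℝ => y + s * u) (cocompact ℝ) (cocompact ℝ) :=
    ((Homeomorph.mulRight₀ u hu).trans (Homeomorph.addLeft y)).isClosedEmbedding.tendsto_cocompact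
  have h2 : Tendsto (fun s : ℝ => ‖y + s * u‖) (cocompact ℝ) atTop :=
    (tendsto_norm_cocompact_atTop (E := ℝ)).comp h1
  exact (tendsto_rpow_atTop hp).comp h2

/-- half line integral of a derivative of constant sign -/
theorem half {h h' : ℝ → ℝ} {s0 : ℝ} (hd : ∀ s, HasDerivAt h (h' s) s)
    (hpos : ∀ s, s0 < s → 0 ≤ h' s) (htop : Tendsto h atTop atTop) :
    ∫⁻ s in Ioi s0, ENNReal.ofReal (|h' s| * Real.exp (-h s)) =
      ENNReal.ofReal (Real.exp (-h s0)) := by
  have hder : ∀ s ∈ Ici s0, HasDerivAt (fun s => -Real.exp (-h s))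
      (h' s * Real.exp (-h s)) s := by
    intro s _
    have := ((hd s).neg.exp).neg
    refine this.congr_deriv ?_
    simp only [Pi.neg_apply]
    ring
  have hnn : ∀ s ∈ Ioi s0, 0 ≤ h' s * Real.exp (-h s) := fun s hs =>
    mul_nonneg (hpos s hs) (Real.exp_pos _).le
  have hlim : Tendsto (fun s => -Real.exp (-h s)) atTop (𝓝 0) := by
    have : Tendsto (fun s => Real.exp (-h s)) atTop (𝓝 0) :=
      Real.tendsto_exp_neg_atTop_nhds_zero.comp htop
    simpa using this.neg
  have h1 := integral_Ioi_of_hasDerivAt_of_nonneg' hder hnn hlim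
  have h2 := integrableOn_Ioi_deriv_of_nonneg' hder hnn hlim
  have h3 : ∫⁻ s in Ioi s0, ENNReal.ofReal (|h' s| * Real.exp (-h s)) =
      ∫⁻ s in Ioi s0, ENNReal.ofReal (h' s * Real.exp (-h s)) := by
    apply setLIntegral_congr_fun measurableSet_Ioi
    intro s hs
    simp only
    rw [abs_of_nonneg (hpos s hs)]
  rw [h3, ← ofReal_integral_eq_lintegral_ofReal h2, h1]
  · congr 1; ring
  · exact (ae_restrict_iff' measurableSet_Ioi).2 (Eventually.of_forall hnn)

/-- whole line -/
theorem line {h h' : ℝ → ℝ} {s0 : ℝ} (hd : ∀ s, HasDerivAt h (h' s) s)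
    (hpos : ∀ s, s0 < s → 0 ≤ h' s) (hneg : ∀ s, s < s0 → h' s ≤ 0)
    (htop : Tendsto h atTop atTop) (hbot : Tendsto h atBot atTop) :
    ∫⁻ s, ENNReal.ofReal (|h' s| * Real.exp (-h s)) =
      ENNReal.ofReal (2 * Real.exp (-h s0)) := by
  have h1 := half hd hpos htop
  have h2 : ∫⁻ s in Iio s0, ENNReal.ofReal (|h' s| * Real.exp (-h s)) =
      ENNReal.ofReal (Real.exp (-h s0)) := by
    have hm := (Measure.measurePreserving_neg (volume : Measure ℝ)).setLIntegral_comp_preimage_emb
      (MeasurableEquiv.neg ℝ).measurableEmbedding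
      (fun s => ENNReal.ofReal (|h' s| * Real.exp (-h s))) (Iio s0)
    rw [← hm]
    have hpre : (Neg.neg : ℝ → ℝ) ⁻¹' (Iio s0) = Ioi (-s0) := by
      ext s; simp only [mem_preimage, mem_Iio, mem_Ioi]; constructor <;> intro h <;> linarith
    rw [hpre]
    have hd' : ∀ s, HasDerivAt (fun s => h (-s)) (-h' (-s)) s := by
      intro s
      have := (hd (-s)).comp s (hasDerivAt_neg s)
      refine this.congr_deriv ?_
      ring
    have h3 := half (h := fun s => h (-s)) (h' := fun s => -h' (-s)) (s0 := -s0) hd'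
      (fun s hs => by
        have := hneg (-s) (by linarith)
        linarith) (hbot.comp tendsto_neg_atTop_atBot)
    simp only [neg_neg, abs_neg] at h3
    exact h3
  rw [← lintegral_add_compl _ (measurableSet_Iic : MeasurableSet (Iic s0)), compl_Iic,
    setLIntegral_congr (Iio_ae_eq_Iic (a := s0)).symm, h1, h2,
    ← ENNReal.ofReal_add (Real.exp_pos _).le (Real.exp_pos _).le]
  congr 1; ring

end Pool.Agent.Helper85.ProjE
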